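import Pool.Agent.H291R3.PSB.Base
import Pool.Agent.W416.Equidim

/-!
# The base ring `O⟦X⟧⟦Y⟧` over a discrete valuation ring `O`

The base ring of the starting example is `ℚ⟦γ⟧⟦β⟧⟦α⟧`. Here `ℚ⟦γ⟧` is replaced by an arbitrary
discrete valuation ring `O`, with `γ` a uniformizer.
-/

set_option autoImplicit false

namespace Pool.Agent.Y99.PB

open PowerSeries IsLocalRing Pool.Agent.H607R3.PS Pool.Agent.H291R3.PSB H51R3.PS
  Pool.Agent.W416.Equidim

section Base

variable {O : Type} [CommRing O] [IsDomain O] [IsDiscreteValuationRing O]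

/-- The base ring. -/
abbrev TT (O : Type) [CommRing O] : Type := PowerSeries (PowerSeries O)

/-- The first parameter. -/
noncomputable def a1 (O : Type) [CommRing O] : TT O := X
/-- The second parameter. -/
noncomputable def a2 (O : Type) [CommRing O] : TT O := C (X : PowerSeries O)
/-- The third parameter. -/
noncomputable def a3 (t : O) : TT O := C (C t)

omit [IsDomain O] [IsDiscreteValuationRing O] in
theorem mem_span3' (t : O) (f : TT O) :
    f ∈ (Ideal.span {a1 O, a2 O, a3 t} : Ideal (TT O)) ↔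
      t ∣ constantCoeff (constantCoeff f) := by
  constructor
  · intro h
    have hle : (Ideal.span {a1 O, a2 O, a3 t} : Ideal (TT O)) ≤
        (Ideal.span {t} : Ideal O).comap
          ((constantCoeff : PowerSeries O →+* O).comp (constantCoeff : TT O →+* PowerSeries O)) := by
      rw [Ideal.span_le]
      intro x hx
      simp only [Set.mem_insert_iff, Set.mem_singleton_iff] at hx
      rw [SetLike.mem_coe, Ideal.mem_comap, Ideal.mem_span_singleton]
      rcases hx with rfl | rfl | rfl
      · simp [a1]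
      · simp [a2]
      · simp [a3]
    have h1 := hle h
    rw [Ideal.mem_comap, Ideal.mem_span_singleton] at h1
    exact h1
  · rintro ⟨c, hc⟩
    obtain ⟨g1, hg1⟩ := decomp1 f
    obtain ⟨g2, hg2⟩ := decomp1 (constantCoeff f)
    have h1 : f = a1 O * g1 + a2 O * C g2 + a3 t * C (C c) := by
      rw [hc] at hg2
      rw [hg1, hg2]
      simp only [map_add, map_mul, a1, a2, a3]
      ring
    rw [h1]
    refine Ideal.add_mem _ (Ideal.add_mem _ ?_ ?_) ?_
    · exact Ideal.mul_mem_right _ _ (Ideal.subset_span (by simp))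
    · exact Ideal.mul_mem_right _ _ (Ideal.subset_span (by simp))
    · exact Ideal.mul_mem_right _ _ (Ideal.subset_span (by simp))

omit [IsDomain O] [IsDiscreteValuationRing O] in
theorem span2_eq' : (Ideal.span {a1 O, a2 O} : Ideal (TT O)) = RingHom.ker
    ((constantCoeff : PowerSeries O →+* O).comp (constantCoeff : TT O →+* PowerSeries O)) := by
  apply le_antisymm
  · rw [Ideal.span_le]
    intro x hx
    simp only [Set.mem_insert_iff, Set.mem_singleton_iff] at hx
    rw [SetLike.mem_coe, RingHom.mem_ker]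
    rcases hx with rfl | rfl
    · simp [a1]
    · simp [a2]
  · intro f hf
    rw [RingHom.mem_ker, RingHom.comp_apply] at hf
    obtain ⟨g1, hg1⟩ := decomp1 f
    obtain ⟨g2, hg2⟩ := decomp1 (constantCoeff f)
    rw [hf, map_zero, zero_add] at hg2
    have h1 : f = a1 O * g1 + a2 O * C g2 := by
      rw [hg1, hg2]
      simp only [map_mul, a1, a2]
      ring
    rw [h1]
    refine Ideal.add_mem _ ?_ ?_
    · exact Ideal.mul_mem_right _ _ (Ideal.subset_span (by simp))
    · exact Ideal.mul_mem_right _ _ (Ideal.subset_span (by simp))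

omit [IsDiscreteValuationRing O] in
theorem reg3' {t : O} (ht : t ≠ 0) : Reg3 (a1 O ^ 4) (a2 O ^ 2) (a3 t ^ 4) := by
  have hal : (a1 O ^ 4 : TT O) ≠ 0 := pow_ne_zero _ X_ne_zero
  have hbe : a2 O ^ 2 = C ((X : PowerSeries O) ^ 2) := by rw [a2, map_pow]
  have hga : a3 t ^ 4 = C (C (t ^ 4)) := by rw [a3, map_pow, map_pow]
  refine ⟨?_, ?_, ?_⟩
  · intro a ha
    exact (mul_eq_zero.mp ha).resolve_left hal
  · intro a b hab
    have hd : (X : TT O) ^ 4 ∣ a := by
      rw [X_pow_dvd_iff]
      intro m hm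
      have h1 : coeff m (a2 O ^ 2 * a) = 0 := by
        rw [hab]
        exact X_pow_dvd_iff.mp ⟨b, rfl⟩ m hm
      rw [hbe, coeff_C_mul] at h1
      exact (mul_eq_zero.mp h1).resolve_left (pow_ne_zero _ X_ne_zero)
    obtain ⟨a', ha'⟩ := hd
    exact ⟨a', ha'⟩
  · intro c p q hc
    have key : ∀ n < 4, ∃ d : PowerSeries O, coeff n c = X ^ 2 * d := by
      intro n hn
      have h1 : coeff n (a3 t ^ 4 * c) = C (t ^ 4) * coeff n c := by
        rw [hga, coeff_C_mul]
      have h2 : coeff n (a1 O ^ 4 * p) = 0 := X_pow_dvd_iff.mp ⟨p, rfl⟩ n hn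
      have h3 : coeff n (a2 O ^ 2 * q) = (X : PowerSeries O) ^ 2 * coeff n q := by
        rw [hbe, coeff_C_mul]
      have h4 : C (t ^ 4) * coeff n c = (X : PowerSeries O) ^ 2 * coeff n q := by
        rw [← h1, hc, map_add, h2, h3, zero_add]
      have h5 : (X : PowerSeries O) ^ 2 ∣ coeff n c := by
        rw [X_pow_dvd_iff]
        intro m hm
        have h6 : coeff m (C (t ^ 4) * coeff n c) = 0 := by
          rw [h4]
          exact X_pow_dvd_iff.mp ⟨_, rfl⟩ m hm
        rw [coeff_C_mul] at h6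
        exact (mul_eq_zero.mp h6).resolve_left (pow_ne_zero _ ht)
      obtain ⟨d, hd⟩ := h5
      exact ⟨d, hd⟩
    choose! d hd using key
    have h7 : (X : TT O) ^ 4 ∣ c - a2 O ^ 2 * (mk d : TT O) := by
      rw [X_pow_dvd_iff]
      intro m hm
      rw [map_sub, hbe, coeff_C_mul, coeff_mk, hd m hm, sub_self]
    obtain ⟨p', hp'⟩ := h7
    refine ⟨p', mk d, ?_⟩
    have h8 : (X : TT O) = a1 O := rfl
    rw [h8] at hp'
    rw [← hp']
    ring

theorem base' {t : O} (ht : Irreducible t) : Base (TT O) (a1 O) (a2 O) (a3 t) := by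
  refine ⟨?_, ?_, ?_, reg3' ht.ne_zero, ?_⟩
  · ext f
    rw [mem_max_iff, mem_max_iff, mem_span3', ht.maximalIdeal_eq, Ideal.mem_span_singleton]
  · rw [span2_eq']
    exact RingHom.ker_isPrime _
  · rw [span2_eq', RingHom.mem_ker]
    simp only [a3, RingHom.comp_apply, constantCoeff_C]
    exact ht.ne_zero
  · rw [dim_succ, dim_succ, IsDiscreteValuationRing.ringKrullDim_eq_one]
    norm_num

/-- The structure map from `O`. -/
noncomputable def str (O : Type) [CommRing O] (α β γ : TT O) : O →+* RR (TT O) α β γ :=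
  (RR.emb : TT O →+* RR (TT O) α β γ).comp
    ((C : PowerSeries O →+* TT O).comp (C : O →+* PowerSeries O))

end Base

/-- **The counterexample over every discrete valuation ring.** -/
theorem counterexample (O : Type) [CommRing O] [IsDomain O] [IsDiscreteValuationRing O] :
    ∃ (R : Type) (_ : CommRing R) (_ : IsNoetherianRing R) (_ : IsLocalRing R) (i : O →+* R)
      (N : Type) (_ : AddCommGroup N) (_ : Module R N),
      Function.Injective i ∧ (∀ a, IsUnit (i a) → IsUnit a) ∧
      (∀ r : R, ∃ a : O, r - i a ∈ maximalIdeal R) ∧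
      IsReduced R ∧ ringKrullDim R = 3 ∧
      (∃ rs : List R, rs.length = 3 ∧ RingTheory.Sequence.IsRegular R rs) ∧
      (∀ p ∈ minimalPrimes R, ringKrullDim (R ⧸ p) = 3) ∧
      Module.Finite R N ∧ Nontrivial N ∧
      CategoryTheory.HasProjectiveDimensionLE (ModuleCat.of R N) 3 ∧
      ∃ p ∈ minimalPrimes R, ∀ q ∈ (Module.annihilator R N).minimalPrimes, ¬ (p ≤ q) := by
  obtain ⟨t, ht⟩ := IsDiscreteValuationRing.exists_irreducible O
  have hB := base' ht
  obtain ⟨α, hα'⟩ : ∃ α, α = a1 O := ⟨_, rfl⟩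
  obtain ⟨β, hβ'⟩ : ∃ β, β = a2 O := ⟨_, rfl⟩
  obtain ⟨γ, hγ'⟩ : ∃ γ, γ = a3 t := ⟨_, rfl⟩
  have hmax : ∀ f : TT O, constantCoeff (constantCoeff f) = 0 → f ∈ maximalIdeal (TT O) := by
    intro f hf
    rw [hB.max, mem_span3', hf]
    exact dvd_zero t
  rw [← hα', ← hβ', ← hγ'] at hB
  obtain ⟨hα, hβ, hγ⟩ := mem_max hB
  have hloc : IsLocalRing (RR (TT O) α β γ) :=
    Pool.Agent.H607R3.PS.taskLoc (TT O) α β γ hα hβ hγ
  refine ⟨RR (TT O) α β γ, inferInstance, inferInstance, hloc, str O α β γ,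
    RR (TT O) α β γ ⧸ cI (RR.x : RR (TT O) α β γ) RR.y RR.z RR.w RR.s, inferInstance,
    inferInstance, ?_, ?_, ?_,
    reduced hB, dimR_eq hB, ⟨_, rfl, regularSeq hB⟩, dim_quot_minimal hB, inferInstance, ?_, ?_, ?_⟩
  · intro a b hab
    have h1 : C (C a) = (C (C b) : TT O) := congrArg RR.a hab
    exact C_injective (C_injective h1)
  · intro a ha
    have h1 : IsUnit (rho (str O α β γ a) : TT O) := ha.map rho
    have h2 : (rho (str O α β γ a) : TT O) = C (C a) := rfl
    rw [h2, PowerSeries.isUnit_iff_constantCoeff, constantCoeff_C,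
      PowerSeries.isUnit_iff_constantCoeff, constantCoeff_C] at h1
    exact h1
  · intro r
    refine ⟨constantCoeff (constantCoeff r.a), ?_⟩
    have hemb : ∀ f : TT O, f ∈ maximalIdeal (TT O) →
        (RR.emb f : RR (TT O) α β γ) ∈ maximalIdeal (RR (TT O) α β γ) := by
      intro f hf
      rw [mem_maximalIdeal, mem_nonunits_iff] at hf ⊢
      intro hu
      exact hf (hu.map (rho : RR (TT O) α β γ →+* TT O))
    have hx : (RR.x : RR (TT O) α β γ) ∈ maximalIdeal (RR (TT O) α β γ) := by
      rw [mem_maximalIdeal, mem_nonunits_iff]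
      intro hu
      have h1 : (rho (RR.x : RR (TT O) α β γ) : TT O) = 0 := rfl
      have h2 := hu.map (rho : RR (TT O) α β γ →+* TT O)
      rw [h1] at h2
      exact not_isUnit_zero h2
    have hw : (RR.w : RR (TT O) α β γ) ∈ maximalIdeal (RR (TT O) α β γ) := by
      rw [mem_maximalIdeal, mem_nonunits_iff]
      intro hu
      have h1 : (rho (RR.w : RR (TT O) α β γ) : TT O) = 0 := rfl
      have h2 := hu.map (rho : RR (TT O) α β γ →+* TT O)
      rw [h1] at h2
      exact not_isUnit_zero h2
    have h3 : r - str O α β γ (constantCoeff (constantCoeff r.a)) =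
        (RR.emb (r.a - C (C (constantCoeff (constantCoeff r.a)))) : RR (TT O) α β γ) +
          (RR.emb r.b : RR (TT O) α β γ) * RR.x + (RR.emb r.c : RR (TT O) α β γ) * RR.w := by
      have h5 : str O α β γ (constantCoeff (constantCoeff r.a)) =
          (RR.emb (C (C (constantCoeff (constantCoeff r.a)))) : RR (TT O) α β γ) := rfl
      rw [h5, map_sub]
      linear_combination RR.decomp r
    rw [h3]
    refine Ideal.add_mem _ (Ideal.add_mem _ (hemb _ (hmax _ ?_)) (Ideal.mul_mem_left _ _ hx))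
      (Ideal.mul_mem_left _ _ hw)
    rw [map_sub, map_sub, constantCoeff_C, constantCoeff_C, sub_self]
  · by_contra hcon
    rw [not_nontrivial_iff_subsingleton] at hcon
    have h1 := dimN hB
    rw [ringKrullDim_eq_bot_of_subsingleton] at h1
    exact absurd h1 (by decide)
  · have h := pd_of_ex (exR hB)
    rw [range_d1L] at h
    exact h
  · obtain ⟨p, hp, hsp⟩ := exists_minimal hB
    refine ⟨p, hp, ?_⟩
    intro q hq hpq
    rw [Ideal.annihilator_quotient] at hq
    exact not_mem_of_minimal Pool.Agent.H832R3.PS.taskFL hB q hq (hpq hsp)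

end Pool.Agent.Y99.PB
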